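import Pool.Agent.Helper23.Favard.Curve

/-!
# Upper bounds for the polynomial approximation of curves of bounded length
-/

open Filter Real Finset
open scoped ENNReal

namespace Pool.Agent.Results.MP_d7cd59_an.FavardUpper

open Pool.Agent.Helper23.Favard

lemma edist_le_of_coord {a b : ℝ × ℝ} {r : ℝ} (h0 : |a.1 - b.1| ≤ r) (h1 : |a.2 - b.2| ≤ r) :
    edist a b ≤ ENNReal.ofReal r := by
  rw [edist_dist]
  apply ENNReal.ofReal_le_ofReal
  rw [Prod.dist_eq, Real.dist_eq, Real.dist_eq]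
  exact max_le h0 h1

lemma key (K : Set (ℝ × ℝ)) (hK : K ∈ Gamma1) (n : ℕ) :
    ∃ (ψ : ℝ → E2) (P Q : Polynomial ℝ), K = (fun u => (ψ u 0, ψ u 1)) '' Set.Icc 0 1 ∧
      P.natDegree ≤ n ∧ Q.natDegree ≤ n ∧
      (∃ a : ℕ → ℝ, ∀ x, P.eval (cos x) = ∑ k ∈ range (n + 1), a k * cos (k * x)) ∧
      (∃ a : ℕ → ℝ, ∀ x, Q.eval (cos x) = ∑ k ∈ range (n + 1), a k * cos (k * x)) ∧
      (∀ θ, |ψ (wv θ / π) 0 - P.eval (cos θ)| ≤ 1 / (2 * (n + 1))) ∧
      ∀ θ, |ψ (wv θ / π) 1 - Q.eval (cos θ)| ≤ 1 / (2 * (n + 1)) := by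
  obtain ⟨φ, hc, hv, hK⟩ := hK
  obtain ⟨ψ, hψ, himg⟩ := exists_lipschitz φ hc hv
  obtain ⟨P, hP, hPa, hPb⟩ := approx_curve ψ hψ n 0
  obtain ⟨Q, hQ, hQa, hQb⟩ := approx_curve ψ hψ n 1
  refine ⟨ψ, P, Q, ?_, hP, hQ, hPa, hQa, hPb, hQb⟩
  have h1 : (fun t => (φ t 0, φ t 1)) '' Set.Icc (0 : ℝ) 1 =
      (fun p : E2 => (p 0, p 1)) '' (φ '' Set.Icc 0 1) := by
    rw [Set.image_image]
  have h2 : (fun t => (ψ t 0, ψ t 1)) '' Set.Icc (0 : ℝ) 1 =
      (fun p : E2 => (p 0, p 1)) '' (ψ '' Set.Icc 0 1) := by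
    rw [Set.image_image]
  rw [hK, h1, h2, himg]

lemma wv_nonneg (θ : ℝ) : 0 ≤ wv θ := norm_nonneg _

lemma E_H (n : ℕ) : E (HCurves n) Gamma1 ≤ ENNReal.ofReal (1 / (2 * (n + 1))) := by
  unfold E
  refine iSup₂_le fun K hK => ?_
  obtain ⟨ψ, P, Q, rfl, hP, hQ, -, -, hPb, hQb⟩ := key K hK n
  have hpi := pi_pos
  refine (iInf₂_le ((fun t => ((P.comp (2 * Polynomial.X - 1)).eval t,
    (Q.comp (2 * Polynomial.X - 1)).eval t)) '' Set.Icc (0 : ℝ) 1) ?_).trans ?_
  · refine ⟨P.comp (2 * Polynomial.X - 1), Q.comp (2 * Polynomial.X - 1), ?_, ?_, rfl⟩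
    · have h1 : (2 * Polynomial.X - 1 : Polynomial ℝ).natDegree ≤ 1 := by
        have : (2 * Polynomial.X - 1 : Polynomial ℝ) =
          Polynomial.C 2 * Polynomial.X + Polynomial.C (-1) := by
          simp [sub_eq_add_neg]
          rfl
        rw [this]
        exact Polynomial.natDegree_linear_le
      refine Polynomial.natDegree_comp_le.trans ?_
      nlinarith
    · have h1 : (2 * Polynomial.X - 1 : Polynomial ℝ).natDegree ≤ 1 := by
        have : (2 * Polynomial.X - 1 : Polynomial ℝ) =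
          Polynomial.C 2 * Polynomial.X + Polynomial.C (-1) := by
          simp [sub_eq_add_neg]
          rfl
        rw [this]
        exact Polynomial.natDegree_linear_le
      refine Polynomial.natDegree_comp_le.trans ?_
      nlinarith
  · have hev : ∀ (R : Polynomial ℝ) (t : ℝ), (R.comp (2 * Polynomial.X - 1)).eval t =
        R.eval (2 * t - 1) := by
      intro R t
      rw [Polynomial.eval_comp]
      simp
    simp only [hev]
    apply Metric.hausdorffEDist_le_of_mem_edist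
    · rintro _ ⟨u, ⟨hu0, hu1⟩, rfl⟩
      have hw : wv (π * u) = π * u := wv_eq (by positivity) (by nlinarith)
      have hcc := cos_mem_Icc (π * u)
      refine ⟨_, ⟨(1 + cos (π * u)) / 2, ⟨by linarith [hcc.1], by linarith [hcc.2]⟩, rfl⟩, ?_⟩
      have e1 : 2 * ((1 + cos (π * u)) / 2) - 1 = cos (π * u) := by ring
      have e2 : wv (π * u) / π = u := by rw [hw]; field_simp
      apply edist_le_of_coord
      · have := hPb (π * u)
        rw [e2] at this
        simpa only [e1] using this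
      · have := hQb (π * u)
        rw [e2] at this
        simpa only [e1] using this
    · rintro _ ⟨t, ⟨ht0, ht1⟩, rfl⟩
      have hw : wv (arccos (2 * t - 1)) = arccos (2 * t - 1) :=
        wv_eq (arccos_nonneg _) (arccos_le_pi _)
      have e1 : cos (arccos (2 * t - 1)) = 2 * t - 1 :=
        cos_arccos (by linarith) (by linarith)
      refine ⟨_, ⟨arccos (2 * t - 1) / π, ⟨div_nonneg (arccos_nonneg _) hpi.le,
        (div_le_one hpi).mpr (arccos_le_pi _)⟩, rfl⟩, ?_⟩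
      rw [edist_comm]
      apply edist_le_of_coord
      · have := hPb (arccos (2 * t - 1))
        rw [hw, e1] at this
        exact this
      · have := hQb (arccos (2 * t - 1))
        rw [hw, e1] at this
        exact this

lemma E_T (n : ℕ) : E (TCurves n) Gamma1 ≤ ENNReal.ofReal (1 / (2 * (n + 1))) := by
  unfold E
  refine iSup₂_le fun K hK => ?_
  obtain ⟨ψ, P, Q, rfl, -, -, ⟨a, ha⟩, ⟨b, hb⟩, hPb, hQb⟩ := key K hK n
  have hpi := pi_pos
  refine (iInf₂_le ((fun t => (P.eval (cos t), Q.eval (cos t))) '' Set.Icc (0 : ℝ) (2 * π))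
    ?_).trans ?_
  · refine ⟨fun t => P.eval (cos t), fun t => Q.eval (cos t), ⟨a, 0, fun t => ?_⟩,
      ⟨b, 0, fun t => ?_⟩, rfl⟩
    · simp [ha]
    · simp [hb]
  · apply Metric.hausdorffEDist_le_of_mem_edist
    · rintro _ ⟨u, ⟨hu0, hu1⟩, rfl⟩
      have hw : wv (π * u) = π * u := wv_eq (by positivity) (by nlinarith)
      have e2 : wv (π * u) / π = u := by rw [hw]; field_simp
      refine ⟨_, ⟨π * u, ⟨by positivity, by nlinarith⟩, rfl⟩, ?_⟩
      apply edist_le_of_coord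
      · have := hPb (π * u)
        rwa [e2] at this
      · have := hQb (π * u)
        rwa [e2] at this
    · rintro _ ⟨t, ⟨ht0, ht1⟩, rfl⟩
      refine ⟨_, ⟨wv t / π, ⟨div_nonneg (wv_nonneg _) hpi.le,
        (div_le_one hpi).mpr (wv_le _)⟩, rfl⟩, ?_⟩
      rw [edist_comm]
      exact edist_le_of_coord (hPb t) (hQb t)

lemma limsup_bound (F : ℕ → ℝ≥0∞) (hF : ∀ n : ℕ, F n ≤ ENNReal.ofReal (1 / (2 * (n + 1)))) :
    limsup (fun n : ℕ => (n : ℝ≥0∞) * F n) atTop ≤ 1 / 2 := by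
  apply limsup_le_of_le (by isBoundedDefault)
  filter_upwards with n
  calc (n : ℝ≥0∞) * F n ≤ (n : ℝ≥0∞) * ENNReal.ofReal (1 / (2 * (n + 1))) := by
        gcongr
        exact hF n
    _ = ENNReal.ofReal (n * (1 / (2 * (n + 1)))) := by
        rw [ENNReal.ofReal_mul (Nat.cast_nonneg n), ENNReal.ofReal_natCast]
    _ ≤ ENNReal.ofReal (1 / 2) := by
        apply ENNReal.ofReal_le_ofReal
        rw [mul_one_div, div_le_div_iff₀ (by positivity) (by norm_num)]
        linarith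
    _ = 1 / 2 := by
        rw [ENNReal.ofReal_div_of_pos (by norm_num)]
        simp

/-- `E(H_n²; Γ₁) ≤ 1 / (2 (n + 1))` and `E(T_n²; Γ₁) ≤ 1 / (2 (n + 1))` for every `n`; in
particular `c₃ ≤ 1/2` and `c₄ ≤ 1/2`. -/
theorem result :
    (∀ n : ℕ, E (HCurves n) Gamma1 ≤ ENNReal.ofReal (1 / (2 * (n + 1)))) ∧
    (∀ n : ℕ, E (TCurves n) Gamma1 ≤ ENNReal.ofReal (1 / (2 * (n + 1)))) ∧
    c3 ≤ 1 / 2 ∧ c4 ≤ 1 / 2 :=
  ⟨E_H, E_T, limsup_bound _ E_H, limsup_bound _ E_T⟩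

end Pool.Agent.Results.MP_d7cd59_an.FavardUpper
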